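import Mathlib

/-!
# Thin sets need not exist for binary linear codes with many disjoint hitting sets

For every `0 < α < 1` and every `d ≥ 1` there is a binary linear code with `d` pairwise disjoint
hitting sets for which no set `S` satisfies the required inequalities for all nonzero codewords.
-/

set_option autoImplicit false

namespace Pool.Agent.Results.MP_d2d48a_co.ThinSetsFail

/-- `wt(c_S)`: the number of indices in `S` where `c` is nonzero -/
def wtOn {n : ℕ} (S : Finset (Fin n)) (c : Fin n → ZMod 2) : ℕ :=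
  (S.filter fun i => c i ≠ 0).card

/-- the Hamming weight of `c` -/
def wt {n : ℕ} (c : Fin n → ZMod 2) : ℕ :=
  (Finset.univ.filter fun i => c i ≠ 0).card

/-- `S` is a hitting set of the code `C`: every nonzero codeword has a nonzero coordinate in `S` -/
def IsHitting {n : ℕ} (C : Submodule (ZMod 2) (Fin n → ZMod 2)) (S : Finset (Fin n)) : Prop :=
  ∀ c ∈ C, c ≠ 0 → ∃ i ∈ S, c i ≠ 0

/-- `C` has `d` pairwise disjoint hitting sets -/
def HasDisjointHitting {n : ℕ} (C : Submodule (ZMod 2) (Fin n → ZMod 2)) (d : ℕ) : Prop :=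
  ∃ H : Fin d → Finset (Fin n), (∀ s t : Fin d, s ≠ t → Disjoint (H s) (H t)) ∧
    ∀ t : Fin d, IsHitting C (H t)

/-- `S` satisfies `α wt(c) ≤ wt(c_S) < wt(c)` for every nonzero codeword `c` -/
def IsThin {n : ℕ} (α : ℝ) (C : Submodule (ZMod 2) (Fin n → ZMod 2)) (S : Finset (Fin n)) : Prop :=
  ∀ c ∈ C, c ≠ 0 → α * (wt c : ℝ) ≤ (wtOn S c : ℝ) ∧ wtOn S c < wt c

/-- the index set of the coordinates: an `N × d` grid together with `d` further coordinates for
each function `[N] → [d]` -/
abbrev Idx (N d : ℕ) : Type := (Fin N × Fin d) ⊕ ((Fin N → Fin d) × Fin d)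

/-- the codeword with parameters `a`, `b` -/
def cw (N d : ℕ) (a : Fin N → ZMod 2) (b : (Fin N → Fin d) → ZMod 2) : Idx N d → ZMod 2
  | Sum.inl p => a p.1 + ∑ m : Fin N → Fin d, if m p.1 = p.2 then b m else 0
  | Sum.inr q => b q.1

/-- the code -/
def code (N d n : ℕ) (e : Idx N d ≃ Fin n) : Submodule (ZMod 2) (Fin n → ZMod 2) where
  carrier := {c | ∃ a b, ∀ p, c (e p) = cw N d a b p}
  add_mem' := by
    rintro x y ⟨a, b, h⟩ ⟨a', b', h'⟩
    refine ⟨a + a', b + b', fun p => ?_⟩
    rw [Pi.add_apply, h, h']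
    rcases p with p | q
    · have h1 : (∑ m : Fin N → Fin d, if m p.1 = p.2 then (b + b') m else 0) =
          (∑ m : Fin N → Fin d, if m p.1 = p.2 then b m else 0) +
          ∑ m : Fin N → Fin d, if m p.1 = p.2 then b' m else 0 := by
        rw [← Finset.sum_add_distrib]
        refine Finset.sum_congr rfl fun m _ => ?_
        split_ifs <;> simp
      rw [cw, cw, cw, h1, Pi.add_apply]
      ring
    · simp [cw]
  zero_mem' := ⟨0, 0, fun p => by rcases p with p | q <;> simp [cw]⟩
  smul_mem' := by
    rintro r x ⟨a, b, h⟩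
    refine ⟨r • a, r • b, fun p => ?_⟩
    rw [Pi.smul_apply, h]
    rcases p with p | q
    · simp only [cw, Pi.smul_apply, smul_eq_mul, mul_add, Finset.mul_sum, mul_ite, mul_zero]
    · simp [cw]

theorem mem_code {N d n : ℕ} (e : Idx N d ≃ Fin n) (a : Fin N → ZMod 2)
    (b : (Fin N → Fin d) → ZMod 2) : (fun i => cw N d a b (e.symm i)) ∈ code N d n e :=
  ⟨a, b, fun p => by simp⟩

/-- the part of a coordinate: its second entry -/
def part {N d : ℕ} : Idx N d → Fin d
  | Sum.inl p => p.2
  | Sum.inr q => q.2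

/-- the `t`-th hitting set -/
def hit (N d n : ℕ) (e : Idx N d ≃ Fin n) (t : Fin d) : Finset (Fin n) :=
  Finset.univ.filter fun i => part (e.symm i) = t

theorem hit_disjoint {N d n : ℕ} (e : Idx N d ≃ Fin n) (s t : Fin d) (h : s ≠ t) :
    Disjoint (hit N d n e s) (hit N d n e t) := by
  rw [Finset.disjoint_left]
  intro i hi hj
  rw [hit, Finset.mem_filter] at hi hj
  exact h (hi.2.symm.trans hj.2)

theorem hit_hitting {N d n : ℕ} (e : Idx N d ≃ Fin n) (t : Fin d) :
    IsHitting (code N d n e) (hit N d n e t) := by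
  rintro c ⟨a, b, hc⟩ h0
  by_cases hb : b = 0
  · by_cases ha : a = 0
    · exfalso
      apply h0
      funext i
      have := hc (e.symm i)
      rw [e.apply_symm_apply] at this
      rw [this, ha, hb]
      rcases e.symm i with p | q <;> simp [cw]
    · obtain ⟨i, hi⟩ := Function.ne_iff.mp ha
      refine ⟨e (Sum.inl (i, t)), ?_, ?_⟩
      · rw [hit, Finset.mem_filter, e.symm_apply_apply]
        exact ⟨Finset.mem_univ _, rfl⟩
      · rw [hc, hb]
        simpa [cw] using hi
  · obtain ⟨m, hm⟩ := Function.ne_iff.mp hb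
    refine ⟨e (Sum.inr (m, t)), ?_, ?_⟩
    · rw [hit, Finset.mem_filter, e.symm_apply_apply]
      exact ⟨Finset.mem_univ _, rfl⟩
    · rw [hc]
      simpa [cw] using hm

theorem cw_row {N d : ℕ} (i i' : Fin N) (j : Fin d) :
    cw N d (Pi.single i 1) 0 (Sum.inl (i', j)) = if i' = i then 1 else 0 := by
  simp [cw, Pi.single_apply]

theorem cw_col {N d : ℕ} (m : Fin N → Fin d) (i : Fin N) (j : Fin d) :
    cw N d 0 (Pi.single m 1) (Sum.inl (i, j)) = if m i = j then 1 else 0 := by
  simp only [cw, Pi.zero_apply, zero_add, Pi.single_apply]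
  rw [Finset.sum_eq_single m]
  · simp
  · intro b _ hb
    simp [hb]
  · simp

theorem not_thin {N d n : ℕ} (e : Idx N d ≃ Fin n) (α : ℝ) (h0 : 0 < α) (hd : 1 ≤ d)
    (hN : (d : ℝ) < α * N) (S : Finset (Fin n)) : ¬ IsThin α (code N d n e) S := by
  intro hS
  -- every row contains a coordinate outside `S`
  have hrow : ∀ i : Fin N, ∃ j : Fin d, e (Sum.inl (i, j)) ∉ S := by
    intro i
    by_contra hcon
    push Not at hcon
    have hne : (fun k => cw N d (Pi.single i 1) 0 (e.symm k)) ≠ 0 := by
      intro h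
      have h2 := congrFun h (e (Sum.inl (i, ⟨0, hd⟩)))
      simp [cw_row] at h2
    have h1 := (hS _ (mem_code e (Pi.single i 1) 0) hne).2
    refine absurd h1 (not_lt.mpr ?_)
    rw [wt, wtOn]
    apply Finset.card_le_card
    intro k hk
    rw [Finset.mem_filter] at hk ⊢
    refine ⟨?_, hk.2⟩
    rcases hp : e.symm k with p | q
    · have h2 := hk.2
      rw [hp, cw_row] at h2
      have h3 : p.1 = i := by
        by_contra h4
        simp [h4] at h2
      have h4 := hcon p.2
      rw [← h3] at h4
      have h5 : k = e (Sum.inl (p.1, p.2)) := by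
        rw [← e.symm_apply_eq, hp]
      rw [h5]
      exact h4
    · have h2 := hk.2
      rw [hp] at h2
      simp [cw] at h2
  choose m hm using hrow
  -- the codeword attached to the selection `m`
  have hNp : 0 < N := by
    rcases Nat.eq_zero_or_pos N with h | h
    · exfalso
      rw [h] at hN
      have : (0 : ℝ) ≤ d := Nat.cast_nonneg d
      simp at hN
      linarith
    · exact h
  have hne : (fun k => cw N d 0 (Pi.single m 1) (e.symm k)) ≠ 0 := by
    intro h
    have h2 := congrFun h (e (Sum.inl (⟨0, hNp⟩, m ⟨0, hNp⟩)))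
    simp [cw_col] at h2
  have h1 := (hS _ (mem_code e 0 (Pi.single m 1)) hne).1
  -- its weight is at least `N`
  have h2 : N ≤ wt fun k => cw N d 0 (Pi.single m 1) (e.symm k) := by
    rw [wt]
    have h3 : (Finset.univ.image fun i : Fin N => e (Sum.inl (i, m i))).card = N := by
      rw [Finset.card_image_of_injective, Finset.card_univ, Fintype.card_fin]
      intro i i' h
      have h4 := Sum.inl_injective (e.injective h)
      exact (Prod.mk.inj h4).1
    refine le_trans (le_of_eq h3.symm) ?_
    apply Finset.card_le_card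
    intro k hk
    rw [Finset.mem_image] at hk
    obtain ⟨i, _, hi⟩ := hk
    rw [Finset.mem_filter]
    refine ⟨Finset.mem_univ _, ?_⟩
    rw [← hi, e.symm_apply_apply, cw_col]
    simp
  -- the part inside `S` has weight at most `d`
  have h4 : (wtOn S fun k => cw N d 0 (Pi.single m 1) (e.symm k)) ≤ d := by
    rw [wtOn]
    have h5 : (Finset.univ.image fun t : Fin d => e (Sum.inr (m, t))).card ≤ d := by
      refine Finset.card_image_le.trans ?_
      rw [Finset.card_univ, Fintype.card_fin]
    refine le_trans (Finset.card_le_card ?_) h5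
    intro k hk
    rw [Finset.mem_filter] at hk
    rw [Finset.mem_image]
    rcases hp : e.symm k with p | q
    · exfalso
      have h6 := hk.2
      rw [hp, cw_col] at h6
      have h7 : m p.1 = p.2 := by
        by_contra h8
        simp [h8] at h6
      have h8 := hm p.1
      rw [h7] at h8
      have h9 : k = e (Sum.inl (p.1, p.2)) := by
        rw [← e.symm_apply_eq, hp]
      rw [h9] at hk
      exact h8 hk.1
    · have h6 := hk.2
      rw [hp] at h6
      have h7 : q.1 = m := by
        by_contra h8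
        apply h6
        simp [cw, h8]
      refine ⟨q.2, Finset.mem_univ _, ?_⟩
      rw [← h7, ← e.symm_apply_eq.mp hp.symm.symm]
  have h5 : (N : ℝ) ≤ (wt fun k => cw N d 0 (Pi.single m 1) (e.symm k) : ℕ) := by exact_mod_cast h2
  have h6 : ((wtOn S fun k => cw N d 0 (Pi.single m 1) (e.symm k) : ℕ) : ℝ) ≤ d := by
    exact_mod_cast h4
  nlinarith [mul_le_mul_of_nonneg_left h5 h0.le]

/-- The answer to Q1 is negative, for every `α` strictly between `0` and `1`: for every `d ≥ 1` some
binary linear code with `d` pairwise disjoint hitting sets admits no set `S` as required. -/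
theorem result :
    ∀ α : ℝ, 0 < α → α < 1 → ∀ d : ℕ, 1 ≤ d →
      ∃ (n : ℕ) (C : Submodule (ZMod 2) (Fin n → ZMod 2)), 1 ≤ n ∧ HasDisjointHitting C d ∧
        ∀ S : Finset (Fin n), ¬ IsThin α C S := by
  intro α h0 _ d hd
  obtain ⟨N, hN⟩ := exists_nat_gt ((d : ℝ) / α)
  have hN' : (d : ℝ) < α * N := by
    rw [div_lt_iff₀ h0] at hN
    linarith
  have hNp : 0 < N := by
    rcases Nat.eq_zero_or_pos N with h | h
    · exfalso
      rw [h] at hN'
      have : (0 : ℝ) ≤ d := Nat.cast_nonneg d
      simp at hN'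
      linarith
    · exact h
  refine ⟨Fintype.card (Idx N d), code N d _ (Fintype.equivFin _), ?_,
    ⟨hit N d _ _, hit_disjoint _, hit_hitting _⟩, not_thin _ α h0 hd hN'⟩
  exact Fintype.card_pos_iff.mpr ⟨Sum.inl (⟨0, hNp⟩, ⟨0, hd⟩)⟩

end Pool.Agent.Results.MP_d2d48a_co.ThinSetsFail
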